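import Pool.Agent.Helper59.Existence

open NumberField IsDedekindDomain Pool.Agent.Helper59

namespace Pool.Agent.Results.MP_cd44e0_nt.MazurDimTwo

/-- **Mazur's dimension conjecture fails for `p = 2`, `K = ℚ`, `n = 2`.**
There are a finite set `S` of places of `ℚ` containing the places above `2` and the real place
(the latter is built into `GaloisGroupOutside`) and a continuous absolutely irreducible
`ρbar : G_{ℚ,S} → GL_2(𝔽_2)` which has a universal deformation `ρu` to a universal deformation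
ring `R` such that `h¹` is finite and `dim R/(2) ≥ h¹ - h² + 2`, i.e. `h¹ + 2 ≤ dim R/(2) + h²`. -/
theorem result :
    ∃ (S : Set (HeightOneSpectrum (𝓞 ℚ))) (ρbar : GaloisGroupOutside ℚ S →* GL (Fin 2) (ZMod 2))
      (R : CoeffRing 2 (ZMod 2)) (ρu : GaloisGroupOutside ℚ S →* GL (Fin 2) R),
      S.Finite ∧ (∀ v : HeightOneSpectrum (𝓞 ℚ), (2 : 𝓞 ℚ) ∈ v.asIdeal → v ∈ S) ∧
      IsLocallyConstant ρbar ∧ AbsolutelyIrreducible ρbar ∧
      IsUniversalDeformation ρbar R ρu ∧ h1 ρbar ≠ ⊤ ∧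
      ((h1 ρbar : ℕ∞) : WithBot ℕ∞) + 2 ≤
        krullDimModP 2 R + ((h2 ρbar : ℕ∞) : WithBot ℕ∞) :=
  exists_counterexample

end Pool.Agent.Results.MP_cd44e0_nt.MazurDimTwo
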